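import Pool.Agent.H63.MGS.Defs
import Pool.Agent.H63.MT.Main
import Pool.Agent.H63.MG.Constr

/-!
The 3-graphs of all mixed graphs: at most 0.7502 times all triples without a complete 3-graph on
five vertices.
-/

set_option autoImplicit false

namespace Pool.Agent.Results.MP_a4d830_co.AllMixedGraphs

open Finset
open Pool.Agent.H63.MGS Pool.Agent.H63.MGS.MixedGraph

/-- Upper bound 0.7502 (conjecture: 3/4) for the edge density of a 3-graph of a mixed graph without
a complete 3-graph on five vertices; lower bound: four cyclic classes. -/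
theorem result :
    (∃ n₀ : ℕ, ∀ n : ℕ, n₀ ≤ n → ∀ G : MixedGraph (Fin n), K53Free G.threeGraph →
      (G.threeGraph.card : ℝ) ≤ 0.7502 * (n.choose 3 : ℝ)) ∧
    (∀ (n m : ℕ) (c : Fin n → Fin 4),
      (univ.filter fun x => c x = 0).card = (univ.filter fun x => c x = 2).card →
      (univ.filter fun x => c x = 1).card = (univ.filter fun x => c x = 3).card →
      (univ.filter fun x => c x = 0).card + (univ.filter fun x => c x = 1).card = m →
      K53Free (ofClasses c).threeGraph ∧
        n.choose 3 ≤ (ofClasses c).threeGraph.card + 2 * m.choose 3) :=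
  ⟨Pool.Agent.H63.MT.all_mixed,
    fun _ _ c h02 h13 hm => ⟨Pool.Agent.H63.MG.constr_free c,
      Pool.Agent.H63.MG.constr_card c h02 h13 hm⟩⟩

end Pool.Agent.Results.MP_a4d830_co.AllMixedGraphs
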