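import Pool.Agent.H3.L.Lim

/-! The codegree squared (`ℓ₂`-norm) Turán density of the complete `4`-graph on five vertices is `31 / 64`, with
stability.

Authors: helper3, helper35 (engine, lower bound, medium codegrees), helper21, helper38 (numerics), helper54,
helper68, helper36, helper63. -/

set_option autoImplicit false
open Finset Filter Topology

namespace Pool.Agent.Results.MP_a4d830_co.CodegreeSquares
open Pool.Agent.H35.Z Pool.Agent.H3.L
open Pool.Agent.H3.Y (odd5 cobDist)

/-- Let `H` be a `K_5^4`-free `4`-graph with `n` vertices.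
(1) The sum of the squares of the codegrees of the triples is at most `31 * n ^ 5 / 384 - q / 1024`, where `q` is the
number of the five-sets which contain an odd number of edges.
(2) The maximum `exSq n` of this sum is at least `31 / 384 * 120 * n.choose 5` for every `n`.
(3) The limit of `exSq n / (n.choose 3 * (n - 3) ^ 2)` is `31 / 64`.
(4) There is a family `G` of triples such that the number of quadruples on which `H` and the coboundary of `G` differ
is at most `5120 / n` times the difference of `31 * n ^ 5 / 384` and the sum of the squares; it also bounds the number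
of edges in terms of the number of the triples whose codegree `d` satisfies `n / 2 < d < 3 * n / 4 - k`.
(5) The `4`-graphs of Giraud have no such triple for `k = 2`. -/
theorem result :
    (∀ (n : ℕ) (H : Finset (Finset (Fin n))), FourGraph H → K5Free H →
      3072 * sq H + 3 * odd5 H ≤ 248 * n ^ 5) ∧
    (∀ n : ℕ, 31 * (120 * n.choose 5) ≤ 384 * exSq n) ∧
    Tendsto (fun n : ℕ => (exSq n : ℝ) / ((n.choose 3 : ℝ) * ((n : ℝ) - 3) ^ 2)) atTop (𝓝 (31 / 64)) ∧
    (∀ (n : ℕ) (H : Finset (Finset (Fin n))), FourGraph H → K5Free H →
      ∃ G : Finset (Finset (Fin n)), (∀ e ∈ G, e.card = 3) ∧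
        3 * (n * cobDist H G) + 15360 * sq H ≤ 1240 * n ^ 5 ∧
        ∀ k : ℕ, 3 * (n * cobDist H G) + 76800 * (n * H.card) ≤
          2200 * n ^ 5 + 640 * (k * n ^ 4) + 240 * (n ^ 2 * mid H k)) ∧
    (∀ m : ℕ, 1 ≤ m → ∃ (V : Type) (_ : Fintype V) (_ : DecidableEq V) (H : Finset (Finset V)),
      Fintype.card V = 2 ^ (m + 1) ∧ FourGraph H ∧ K5Free H ∧ mid H 2 = 0 ∧
      11 * (Fintype.card V).choose 4 ≤ 16 * H.card) := by
  refine ⟨fun n H h4 hK => ?_, lower, density, cob, construction⟩
  have h := upper H h4 hK
  rwa [Fintype.card_fin] at h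

end Pool.Agent.Results.MP_a4d830_co.CodegreeSquares
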