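import Pool.Agent.H35.Y.Up

/-! The largest number of edges of a `4`-graph with `n` vertices that has no complete `4`-graph on five
vertices and no induced copy of one `4`-graph `X` with six vertices and seven edges: the density is
exactly `11 / 16`, the value which Giraud conjectured for `K_5^4` alone. -/

set_option autoImplicit false
open Finset Filter Topology

namespace Pool.Agent.Results.MP_a4d830_co.InducedX

open Pool.Agent.H35.Y

/-- Every `K_5^4`-free `4`-graph `H` on `n` vertices has at most
`11 n ^ 4 / 384 + 818 n ^ 3 / 384 + 39220 N / (384 n ^ 2)` edges, `N` being the number of sets of six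
vertices on which `H` induces a copy of `X`; and the largest number `exX n` of edges of a `K_5^4`-free
`4`-graph on `n` vertices without an induced copy of `X` is at least `(11 / 16) * n.choose 4` for every
`n`, and asymptotically equal to it. -/
theorem result :
    (∀ (n : ℕ) (H : Finset (Finset (Fin n))), FourGraph H → K5Free H →
      384 * (n ^ 2 * H.card) ≤ 11 * n ^ 6 + 818 * n ^ 5 + 39220 * copies H) ∧
    (∀ n : ℕ, 11 * n.choose 4 ≤ 16 * exX n) ∧
    Tendsto (fun n : ℕ => (exX n : ℝ) / (n.choose 4 : ℝ)) atTop (𝓝 (11 / 16)) := by
  refine ⟨fun n H h4 hK => ?_, lower, density⟩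
  have h := upper_main H h4 hK
  rwa [Fintype.card_fin] at h

end Pool.Agent.Results.MP_a4d830_co.InducedX
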