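import Pool.Agent.H63.MGS.Defs
import Pool.Agent.H63.MG.Main
import Pool.Agent.H63.MG.Constr

/-!
The conjectured density 3/4 for the 3-graphs of mixed graphs without a complete 3-graph on five
vertices.
-/

set_option autoImplicit false

namespace Pool.Agent.Results.MP_a4d830_co.MixedGraphs

open Finset
open Pool.Agent.H63.MGS Pool.Agent.H63.MGS.MixedGraph

/-- Upper bound: the 3-graph of a mixed graph with few transitive sequences of arrows has edge
density at most `3/4 + o(1)` if it contains no complete 3-graph on five vertices. Lower bound: every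
cyclic arrangement of four classes satisfies these hypotheses and, if opposite classes have equal
sizes, its 3-graph has at least the number of edges conjectured by Turan. -/
theorem result :
    (∀ (r : ℕ) (ε : ℝ), 0 < ε → ∃ δ : ℝ, 0 < δ ∧ ∃ n₀ : ℕ, ∀ n : ℕ, n₀ ≤ n →
      ∀ G : MixedGraph (Fin n), K53Free G.threeGraph →
        (G.transitiveCount r : ℝ) ≤ δ * (n : ℝ) ^ r →
        (G.threeGraph.card : ℝ) ≤ (3 / 4 + ε) * (n.choose 3 : ℝ)) ∧
    (∀ (n : ℕ) (c : Fin n → Fin 4), K53Free (ofClasses c).threeGraph ∧
      (ofClasses c).transitiveCount 3 = 0) ∧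
    (∀ (n m : ℕ) (c : Fin n → Fin 4),
      (univ.filter fun x => c x = 0).card = (univ.filter fun x => c x = 2).card →
      (univ.filter fun x => c x = 1).card = (univ.filter fun x => c x = 3).card →
      (univ.filter fun x => c x = 0).card + (univ.filter fun x => c x = 1).card = m →
      n.choose 3 ≤ (ofClasses c).threeGraph.card + 2 * m.choose 3) :=
  ⟨fun r ε hε => Pool.Agent.H63.MG.few_transitive r ε hε,
    fun _ c => ⟨Pool.Agent.H63.MG.constr_free c, Pool.Agent.H63.MG.constr_trans c⟩,
    fun _ _ c h02 h13 hm => Pool.Agent.H63.MG.constr_card c h02 h13 hm⟩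

end Pool.Agent.Results.MP_a4d830_co.MixedGraphs
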